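import Pool.Agent.Helper82_NIB.Stmts

/-!
# NIB: module BERN (and tools for COND)

Concentration by successive exposure of the coordinates of a finite weighted product space.
-/

set_option autoImplicit false
set_option linter.unusedSectionVars false

open Finset Matrix

namespace Pool.Agent.NIB.H79

section tools

variable {I α : Type} [Fintype I] [DecidableEq I] [Fintype α]

/-- exchange of one coordinate with a fresh sample -/
noncomputable def swp (i : I) : ((I → α) × α) ≃ ((I → α) × α) where
  toFun q := (Function.update q.1 i q.2, q.1 i)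
  invFun q := (Function.update q.1 i q.2, q.1 i)
  left_inv q := by
    rcases q with ⟨η, s⟩
    simp
  right_inv q := by
    rcases q with ⟨η, s⟩
    simp

lemma pw_update (wt : I → α → ℝ) (η : I → α) (i : I) (s : α) :
    pw wt (Function.update η i s) * wt i (η i) = pw wt η * wt i s := by
  unfold pw
  rw [← Finset.mul_prod_erase univ _ (Finset.mem_univ i),
    ← Finset.mul_prod_erase univ (fun j => wt j (η j)) (Finset.mem_univ i)]
  have h1 : ∏ j ∈ univ.erase i, wt j (Function.update η i s j) = ∏ j ∈ univ.erase i, wt j (η j) := by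
    refine Finset.prod_congr rfl fun j hj => ?_
    rw [Function.update_of_ne (Finset.ne_of_mem_erase hj)]
  rw [h1, Function.update_self]
  ring

/-- disintegration with respect to one coordinate -/
lemma Ex_update {wt : I → α → ℝ} (h : IsWt wt) (i : I) (G : (I → α) → ℝ) :
    Ex wt G = Ex wt (fun η => ∑ s, wt i s * G (Function.update η i s)) := by
  have h1 : Ex wt (fun η => ∑ s, wt i s * G (Function.update η i s))
      = ∑ q : (I → α) × α, pw wt q.1 * wt i q.2 * G (Function.update q.1 i q.2) := by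
    unfold Ex
    rw [Fintype.sum_prod_type]
    refine Finset.sum_congr rfl fun η _ => ?_
    rw [Finset.mul_sum]
    exact Finset.sum_congr rfl fun s _ => by ring
  have h2 : ∑ q : (I → α) × α, pw wt q.1 * wt i q.2 * G (Function.update q.1 i q.2)
      = ∑ q : (I → α) × α, pw wt q.1 * wt i q.2 * G q.1 := by
    rw [← Equiv.sum_comp (swp i) (fun q : (I → α) × α => pw wt q.1 * wt i q.2 * G q.1)]
    refine Finset.sum_congr rfl fun q _ => ?_
    rcases q with ⟨η, s⟩
    show pw wt η * wt i s * G (Function.update η i s)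
      = pw wt (Function.update η i s) * wt i (η i) * G (Function.update η i s)
    rw [pw_update]
  rw [h1, h2, Fintype.sum_prod_type]
  unfold Ex
  refine Finset.sum_congr rfl fun η _ => ?_
  have h3 : ∑ s, pw wt η * wt i s * G η = pw wt η * G η * ∑ s, wt i s := by
    rw [Finset.mul_sum]
    exact Finset.sum_congr rfl fun s _ => by ring
  rw [h3, h.one, mul_one]

/-- average over the coordinates in `S` -/
noncomputable def av (wt : I → α → ℝ) (S : Finset I) (F : (I → α) → ℝ) (ω : I → α) : ℝ :=
  Ex wt (fun η => F (S.piecewise η ω))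

lemma av_empty {wt : I → α → ℝ} (h : IsWt wt) (F : (I → α) → ℝ) (ω : I → α) :
    av wt ∅ F ω = F ω := by
  unfold av
  simp only [Finset.piecewise_empty]
  exact Ex_const h _

lemma av_univ (wt : I → α → ℝ) (F : (I → α) → ℝ) (ω : I → α) :
    av wt univ F ω = Ex wt F := by
  unfold av
  simp only [Finset.piecewise_univ]

lemma pcw_insert (S : Finset I) (i : I) (η ω : I → α) :
    (insert i S).piecewise η ω = S.piecewise η (Function.update ω i (η i)) := by
  funext j
  by_cases hj : j = i
  · subst hj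
    by_cases hS : j ∈ S
    · simp [Finset.piecewise, hS]
    · simp [Finset.piecewise, hS]
  · by_cases hS : j ∈ S
    · simp [Finset.piecewise, hS]
    · simp [Finset.piecewise, hS, hj]

lemma pcw_update_left (S : Finset I) {i : I} (hi : i ∉ S) (η ω : I → α) (s : α) :
    S.piecewise (Function.update η i s) ω = S.piecewise η ω := by
  funext j
  by_cases hS : j ∈ S
  · rw [Finset.piecewise_eq_of_mem _ _ _ hS, Finset.piecewise_eq_of_mem _ _ _ hS,
      Function.update_of_ne (fun e => hi (by rw [← e]; exact hS))]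
  · rw [Finset.piecewise_eq_of_notMem _ _ _ hS, Finset.piecewise_eq_of_notMem _ _ _ hS]

lemma pcw_update_right (S : Finset I) {i : I} (hi : i ∉ S) (η ω : I → α) (s : α) :
    S.piecewise η (Function.update ω i s) = Function.update (S.piecewise η ω) i s := by
  funext j
  by_cases hj : j = i
  · subst hj
    rw [Finset.piecewise_eq_of_notMem _ _ _ hi, Function.update_self, Function.update_self]
  · rw [Function.update_of_ne hj]
    by_cases hS : j ∈ S
    · rw [Finset.piecewise_eq_of_mem _ _ _ hS, Finset.piecewise_eq_of_mem _ _ _ hS]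
    · rw [Finset.piecewise_eq_of_notMem _ _ _ hS, Finset.piecewise_eq_of_notMem _ _ _ hS,
        Function.update_of_ne hj]

lemma av_insert {wt : I → α → ℝ} (h : IsWt wt) {S : Finset I} {i : I} (hi : i ∉ S)
    (F : (I → α) → ℝ) (ω : I → α) :
    av wt (insert i S) F ω = ∑ s, wt i s * av wt S F (Function.update ω i s) := by
  unfold av
  rw [Ex_update h i, ← Finset.sum_congr rfl fun s _ => Ex_mul wt (wt i s) _, ← Ex_sum]
  refine congrArg (Ex wt) ?_
  funext η
  refine Finset.sum_congr rfl fun s _ => ?_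
  rw [pcw_insert, Function.update_self, pcw_update_left S hi]

lemma av_mono {wt : I → α → ℝ} (h : IsWt wt) (S : Finset I) {F G : (I → α) → ℝ}
    (hFG : ∀ ω, F ω ≤ G ω) (ω : I → α) : av wt S F ω ≤ av wt S G ω :=
  Ex_mono h fun _ => hFG _

lemma exp_le_quad {x : ℝ} (hx : |x| ≤ 1) : Real.exp x ≤ 1 + x + x ^ 2 := by
  have := (abs_le.1 (Real.abs_exp_sub_one_sub_id_le hx)).2
  linarith

/-- the basic one-variable estimate -/
lemma one_var {w g c : α → ℝ} {g0 B y : ℝ} (hw : ∀ s, 0 ≤ w s) (hw1 : ∑ s, w s = 1)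
    (hg : ∀ s, |g s - g0| ≤ c s) (hc : ∀ s, c s ≤ B) (hy : |y| * (2 * B) ≤ 1) :
    ∑ s, w s * Real.exp (y * g s)
      ≤ Real.exp (y ^ 2 * ∑ s, w s * c s ^ 2) * Real.exp (y * ∑ s, w s * g s) := by
  set m := ∑ s, w s * g s with hm
  have hm0 : ∑ s, w s * (g s - m) = 0 := by
    have : ∑ s, w s * (g s - m) = ∑ s, w s * g s - (∑ s, w s) * m := by
      rw [Finset.sum_mul, ← Finset.sum_sub_distrib]
      exact Finset.sum_congr rfl fun s _ => by ring
    rw [this, hw1, one_mul, ← hm, sub_self]
  have hmg : |m - g0| ≤ B := by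
    have h1 : m - g0 = ∑ s, w s * (g s - g0) := by
      have : ∑ s, w s * (g s - g0) = ∑ s, w s * g s - (∑ s, w s) * g0 := by
        rw [Finset.sum_mul, ← Finset.sum_sub_distrib]
        exact Finset.sum_congr rfl fun s _ => by ring
      rw [this, hw1, one_mul]
    rw [h1]
    calc |∑ s, w s * (g s - g0)| ≤ ∑ s, |w s * (g s - g0)| := Finset.abs_sum_le_sum_abs _ _
      _ ≤ ∑ s, w s * B := Finset.sum_le_sum fun s _ => by
          rw [abs_mul, abs_of_nonneg (hw s)]
          exact mul_le_mul_of_nonneg_left ((hg s).trans (hc s)) (hw s)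
      _ = B := by rw [← Finset.sum_mul, hw1, one_mul]
  have hD : ∀ s, |y * (g s - m)| ≤ 1 := by
    intro s
    have h1 : |g s - m| ≤ 2 * B := by
      have h2 := abs_le.1 ((hg s).trans (hc s))
      have h3 := abs_le.1 hmg
      rw [abs_le]
      constructor <;> linarith [h2.1, h2.2, h3.1, h3.2]
    rw [abs_mul]
    exact (mul_le_mul_of_nonneg_left h1 (abs_nonneg _)).trans hy
  have hvar : ∑ s, w s * (g s - m) ^ 2 ≤ ∑ s, w s * c s ^ 2 := by
    have h1 : ∑ s, w s * (g s - m) ^ 2 ≤ ∑ s, w s * (g s - g0) ^ 2 := by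
      have h2 : ∑ s, w s * (g s - g0) ^ 2
          = ∑ s, w s * (g s - m) ^ 2 + 2 * (m - g0) * ∑ s, w s * (g s - m)
            + (∑ s, w s) * (m - g0) ^ 2 := by
        rw [Finset.sum_mul, Finset.mul_sum, ← Finset.sum_add_distrib, ← Finset.sum_add_distrib]
        exact Finset.sum_congr rfl fun s _ => by ring
      rw [h2, hm0, hw1]
      nlinarith [sq_nonneg (m - g0)]
    refine h1.trans (Finset.sum_le_sum fun s _ => mul_le_mul_of_nonneg_left ?_ (hw s))
    exact sq_le_sq' (by linarith [(abs_le.1 (hg s)).1]) (abs_le.1 (hg s)).2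
  have key : ∑ s, w s * Real.exp (y * (g s - m)) ≤ Real.exp (y ^ 2 * ∑ s, w s * c s ^ 2) := by
    calc ∑ s, w s * Real.exp (y * (g s - m))
        ≤ ∑ s, w s * (1 + y * (g s - m) + (y * (g s - m)) ^ 2) :=
          Finset.sum_le_sum fun s _ => mul_le_mul_of_nonneg_left (exp_le_quad (hD s)) (hw s)
      _ = ∑ s, w s + y * ∑ s, w s * (g s - m) + y ^ 2 * ∑ s, w s * (g s - m) ^ 2 := by
          rw [Finset.mul_sum, Finset.mul_sum, ← Finset.sum_add_distrib, ← Finset.sum_add_distrib]
          exact Finset.sum_congr rfl fun s _ => by ring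
      _ = 1 + y ^ 2 * ∑ s, w s * (g s - m) ^ 2 := by rw [hw1, hm0]; ring
      _ ≤ 1 + y ^ 2 * ∑ s, w s * c s ^ 2 := by
          have := mul_le_mul_of_nonneg_left hvar (sq_nonneg y)
          linarith
      _ ≤ Real.exp (y ^ 2 * ∑ s, w s * c s ^ 2) := by
          have := Real.add_one_le_exp (y ^ 2 * ∑ s, w s * c s ^ 2)
          linarith
  have h5 : ∑ s, w s * Real.exp (y * g s)
      = (∑ s, w s * Real.exp (y * (g s - m))) * Real.exp (y * m) := by
    rw [Finset.sum_mul]
    refine Finset.sum_congr rfl fun s _ => ?_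
    rw [mul_assoc, ← Real.exp_add]
    congr 2
    ring
  rw [h5]
  exact mul_le_mul_of_nonneg_right key (Real.exp_pos _).le

/-- exponential moment to tail -/
lemma tail1 {wt : I → α → ℝ} (h : IsWt wt) (X : (I → α) → ℝ) {y lam K : ℝ} (hy : 0 ≤ y)
    (hm : Ex wt (fun ω => Real.exp (y * X ω)) ≤ Real.exp K) :
    Pr wt {ω | lam < X ω} ≤ Real.exp (K - y * lam) := by
  have h1 : Pr wt {ω | lam < X ω}
      ≤ Ex wt (fun ω => Real.exp (-(y * lam)) * Real.exp (y * X ω)) := by
    unfold Pr
    refine Ex_mono h fun ω => ?_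
    by_cases hω : ω ∈ {ω | lam < X ω}
    · rw [Set.indicator_of_mem hω, ← Real.exp_add]
      have h2 : lam < X ω := hω
      have h3 : 0 ≤ -(y * lam) + y * X ω := by nlinarith
      exact Real.one_le_exp h3
    · rw [Set.indicator_of_notMem hω]
      positivity
  refine h1.trans ?_
  rw [Ex_mul, sub_eq_add_neg, add_comm, Real.exp_add]
  exact mul_le_mul_of_nonneg_left hm (Real.exp_pos _).le

lemma tail_pos {wt : I → α → ℝ} (h : IsWt wt) (X : (I → α) → ℝ) {Vr B L : ℝ} (hV : 0 < Vr)
    (hB : 0 < B) (hL : 0 ≤ L)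
    (hm : ∀ y : ℝ, |y| * (2 * B) ≤ 1 →
      Ex wt (fun ω => Real.exp (y * X ω)) ≤ Real.exp (y ^ 2 * Vr)) :
    Pr wt {ω | 2 * √(L * Vr) + 4 * L * B < |X ω|} ≤ 2 * Real.exp (-L) := by
  set lam := 2 * √(L * Vr) + 4 * L * B with hlam
  obtain ⟨y, hy0, hy1, hy2⟩ : ∃ y : ℝ, 0 ≤ y ∧ y * (2 * B) ≤ 1 ∧ y ^ 2 * Vr - y * lam ≤ -L := by
    by_cases hc : √(L / Vr) * (2 * B) ≤ 1
    · refine ⟨√(L / Vr), Real.sqrt_nonneg _, hc, ?_⟩
      have h1 : √(L / Vr) ^ 2 = L / Vr := Real.sq_sqrt (div_nonneg hL hV.le)
      have h2 : √(L / Vr) * √(L * Vr) = L := by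
        rw [← Real.sqrt_mul (div_nonneg hL hV.le)]
        have : L / Vr * (L * Vr) = L ^ 2 := by
          field_simp
        rw [this, Real.sqrt_sq hL]
      have h3 : 0 ≤ √(L / Vr) * (4 * L * B) := by positivity
      rw [h1, div_mul_cancel₀ _ hV.ne', hlam, mul_add]
      nlinarith
    · push Not at hc
      refine ⟨1 / (2 * B), by positivity, by
        rw [one_div, inv_mul_cancel₀ (by positivity)], ?_⟩
      have h1 : Vr ≤ 4 * B ^ 2 * L := by
        have h2 : 1 < (√(L / Vr) * (2 * B)) ^ 2 := by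
          have h3 : 0 < √(L / Vr) * (2 * B) := by linarith
          nlinarith
        rw [mul_pow, Real.sq_sqrt (div_nonneg hL hV.le), div_mul_eq_mul_div,
          lt_div_iff₀ hV] at h2
        nlinarith
      have h4 : (1 / (2 * B)) ^ 2 * Vr ≤ L := by
        rw [div_pow, one_pow, div_mul_eq_mul_div, one_mul, div_le_iff₀ (by positivity)]
        nlinarith
      have h5 : 1 / (2 * B) * (4 * L * B) = 2 * L := by
        field_simp
        ring
      have h6 : 0 ≤ 1 / (2 * B) * (2 * √(L * Vr)) := by positivity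
      rw [hlam, mul_add, h5]
      linarith
  have hya : |y| * (2 * B) ≤ 1 := by rwa [abs_of_nonneg hy0]
  have hyb : |(-y)| * (2 * B) ≤ 1 := by rwa [abs_neg, abs_of_nonneg hy0]
  have t1 := tail1 h X (lam := lam) hy0 (hm y hya)
  have t2 := tail1 h (fun ω => - X ω) (lam := lam) (K := y ^ 2 * Vr) hy0 (by
    have := hm (-y) hyb
    rw [neg_sq] at this
    refine le_trans (le_of_eq ?_) this
    refine congrArg (Ex wt) ?_
    funext ω
    congr 1
    ring)
  have h7 : ({ω | lam < |X ω|} : Set (I → α)) ⊆ {ω | lam < X ω} ∪ {ω | lam < - X ω} := by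
    intro ω hω
    have : lam < |X ω| := hω
    rcases lt_abs.1 this with h8 | h8
    · exact Or.inl h8
    · exact Or.inr h8
  have h9 : Real.exp (y ^ 2 * Vr - y * lam) ≤ Real.exp (-L) := Real.exp_le_exp.2 hy2
  calc Pr wt {ω | lam < |X ω|} ≤ Pr wt ({ω | lam < X ω} ∪ {ω | lam < - X ω}) := Pr_mono h h7
    _ ≤ Pr wt {ω | lam < X ω} + Pr wt {ω | lam < - X ω} := Pr_union_le h _ _
    _ ≤ Real.exp (-L) + Real.exp (-L) := add_le_add (t1.trans h9) (t2.trans h9)
    _ = 2 * Real.exp (-L) := by ring

/-- the general tail bound, degenerate cases included -/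
lemma tail_gen {wt : I → α → ℝ} (h : IsWt wt) (X : (I → α) → ℝ) {Vr B L : ℝ} (hV : 0 ≤ Vr)
    (hB : 0 ≤ B) (hL : 0 ≤ L)
    (hm : ∀ y : ℝ, |y| * (2 * B) ≤ 1 →
      Ex wt (fun ω => Real.exp (y * X ω)) ≤ Real.exp (y ^ 2 * Vr)) :
    Pr wt {ω | 2 * √(L * Vr) + 4 * L * B < |X ω|} ≤ 2 * Real.exp (-L) := by
  have h1 : Filter.Tendsto (fun e : ℝ => 2 * √(L * (Vr + e)) + 4 * L * (B + e))
      (nhdsWithin 0 (Set.Ioi 0)) (nhds (2 * √(L * Vr) + 4 * L * B)) := by
    have hc : Continuous (fun e : ℝ => 2 * √(L * (Vr + e)) + 4 * L * (B + e)) := by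
      fun_prop
    have := hc.tendsto 0
    simp only [add_zero] at this
    exact this.mono_left nhdsWithin_le_nhds
  have h2 : ∀ᶠ e : ℝ in nhdsWithin 0 (Set.Ioi 0), ∀ ω : I → α,
      2 * √(L * Vr) + 4 * L * B < |X ω| → 2 * √(L * (Vr + e)) + 4 * L * (B + e) < |X ω| := by
    rw [Filter.eventually_all]
    intro ω
    by_cases hω : 2 * √(L * Vr) + 4 * L * B < |X ω|
    · exact (h1.eventually_lt_const hω).mono fun e he _ => he
    · exact Filter.Eventually.of_forall fun e he => absurd he hω
  have h3 : ∀ᶠ e : ℝ in nhdsWithin 0 (Set.Ioi 0), 0 < e := self_mem_nhdsWithin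
  obtain ⟨e, he, he0⟩ := (h2.and h3).exists
  have h4 := tail_pos h X (Vr := Vr + e) (B := B + e) (L := L) (by linarith) (by linarith) hL
    (by
      intro y hy
      have h5 : |y| * (2 * B) ≤ 1 := by
        have := abs_nonneg y
        nlinarith
      refine (hm y h5).trans (Real.exp_le_exp.2 ?_)
      nlinarith [sq_nonneg y])
  refine (Pr_mono h ?_).trans h4
  intro ω hω
  exact he ω hω

end tools

theorem bern : BernStmt := by
  intro I α _ _ _ _ wt ord d F a b c Vr B L h hord ha hb hF hc hV hB hB0 hL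
  have hc0 : ∀ i s, 0 ≤ c i s := by
    intro i s
    refine le_trans ?_ (hc i s)
    refine add_nonneg (ha i s) (Finset.sum_nonneg fun j _ => Finset.sum_nonneg fun t _ => ?_)
    exact mul_nonneg (h.nonneg j t) (hb i s j t)
  have hV0 : 0 ≤ Vr := by
    refine le_trans ?_ hV
    exact Finset.sum_nonneg fun i _ => Finset.sum_nonneg fun s _ =>
      mul_nonneg (h.nonneg i s) (sq_nonneg _)
  have main : ∀ y : ℝ, |y| * (2 * B) ≤ 1 → ∀ n : ℕ, ∀ S : Finset I, S.card = n →
      (∀ i ∈ S, ∀ j, ord i < ord j → j ∈ S) → ∀ ω,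
      av wt S (fun η => Real.exp (y * F η)) ω
        ≤ Real.exp (y ^ 2 * ∑ i ∈ S, ∑ s, wt i s * c i s ^ 2) * Real.exp (y * av wt S F ω) := by
    intro y hy n
    induction n with
    | zero =>
      intro S hS _ ω
      rw [Finset.card_eq_zero] at hS
      subst hS
      rw [av_empty h, av_empty h]
      simp
    | succ n ih =>
      intro S hS hup ω
      have hne : S.Nonempty := by
        rw [← Finset.card_pos, hS]; omega
      obtain ⟨i, hi, hmin⟩ := Finset.exists_min_image S ord hne
      set S' := S.erase i with hS'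
      have hiS' : i ∉ S' := Finset.notMem_erase i S
      have hSi : insert i S' = S := Finset.insert_erase hi
      have hcard : S'.card = n := by
        rw [hS', Finset.card_erase_of_mem hi, hS]; omega
      have hup' : ∀ k ∈ S', ∀ j, ord k < ord j → j ∈ S' := by
        intro k hk j hj
        have hkS := Finset.mem_of_mem_erase hk
        refine Finset.mem_erase.2 ⟨?_, hup k hkS j hj⟩
        intro hji
        subst hji
        exact absurd (hmin k hkS) (not_le.2 hj)
      have hbig : ∀ j, ord i < ord j → j ∈ S' := by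
        intro j hj
        refine Finset.mem_erase.2 ⟨?_, hup i hi j hj⟩
        intro hji
        subst hji
        exact lt_irrefl _ hj
      rw [← hSi, av_insert h hiS', av_insert h hiS', Finset.sum_insert hiS', mul_add, Real.exp_add]
      set E := Real.exp (y ^ 2 * ∑ i ∈ S', ∑ s, wt i s * c i s ^ 2) with hE
      have h1 : ∑ s, wt i s * av wt S' (fun η => Real.exp (y * F η)) (Function.update ω i s)
          ≤ ∑ s, wt i s * (E * Real.exp (y * av wt S' F (Function.update ω i s))) :=
        Finset.sum_le_sum fun s _ => mul_le_mul_of_nonneg_left (ih S' hcard hup' _) (h.nonneg i s)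
      refine h1.trans ?_
      have h2 : ∑ s, wt i s * (E * Real.exp (y * av wt S' F (Function.update ω i s)))
          = E * ∑ s, wt i s * Real.exp (y * av wt S' F (Function.update ω i s)) := by
        rw [Finset.mul_sum]
        exact Finset.sum_congr rfl fun s _ => by ring
      rw [h2]
      have h3 := one_var (w := wt i) (g := fun s => av wt S' F (Function.update ω i s))
        (c := c i) (g0 := av wt S' F (Function.update ω i (d i))) (B := B) (y := y)
        (h.nonneg i) (h.one i) (fun s => by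
          refine le_trans ?_ (hc i s)
          show |av wt S' F (Function.update ω i s) - av wt S' F (Function.update ω i (d i))| ≤ _
          unfold av
          rw [← Ex_sub]
          have h4 : |Ex wt fun η => F (S'.piecewise η (Function.update ω i s))
              - F (S'.piecewise η (Function.update ω i (d i)))|
              ≤ Ex wt fun η => (a i s + ∑ j with ord i < ord j, b i s j (η j)) := by
            unfold Ex
            refine (Finset.abs_sum_le_sum_abs _ _).trans (Finset.sum_le_sum fun η _ => ?_)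
            rw [abs_mul, abs_of_nonneg (pw_nonneg h η)]
            refine mul_le_mul_of_nonneg_left ?_ (pw_nonneg h η)
            beta_reduce
            rw [pcw_update_right S' hiS', pcw_update_right S' hiS']
            refine (hF i s _).trans (le_of_eq ?_)
            congr 1
            refine Finset.sum_congr rfl fun j hj => ?_
            rw [Finset.piecewise_eq_of_mem _ _ _ (hbig j (Finset.mem_filter.1 hj).2)]
          refine h4.trans (le_of_eq ?_)
          rw [Ex_add, Ex_const h, Ex_sum]
          congr 1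
          exact Finset.sum_congr rfl fun j _ => Ex_coord h j _)
        (hB i) hy
      have hE0 : 0 ≤ E := (Real.exp_pos _).le
      have h5 := mul_le_mul_of_nonneg_left h3 hE0
      refine h5.trans (le_of_eq ?_)
      ring
  refine tail_gen h (fun ω => F ω - Ex wt F) hV0 hB0 hL ?_
  intro y hy
  have h1 : Nonempty (I → α) := by
    by_contra hne
    rw [not_nonempty_iff] at hne
    have := sum_pw h
    rw [Finset.univ_eq_empty, Finset.sum_empty] at this
    exact zero_ne_one this
  obtain ⟨ω0⟩ := h1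
  have h2 := main y hy _ univ rfl (fun i _ j _ => Finset.mem_univ j) ω0
  rw [av_univ, av_univ] at h2
  have h3 : Ex wt (fun ω => Real.exp (y * (F ω - Ex wt F)))
      = Real.exp (-(y * Ex wt F)) * Ex wt (fun ω => Real.exp (y * F ω)) := by
    rw [← Ex_mul]
    refine congrArg (Ex wt) ?_
    funext ω
    rw [← Real.exp_add]
    congr 1
    ring
  rw [h3]
  calc Real.exp (-(y * Ex wt F)) * Ex wt (fun ω => Real.exp (y * F ω))
      ≤ Real.exp (-(y * Ex wt F)) * (Real.exp (y ^ 2 * ∑ i, ∑ s, wt i s * c i s ^ 2)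
        * Real.exp (y * Ex wt F)) := mul_le_mul_of_nonneg_left h2 (Real.exp_pos _).le
    _ = Real.exp (y ^ 2 * ∑ i, ∑ s, wt i s * c i s ^ 2) := by
        rw [← Real.exp_add, ← Real.exp_add]
        congr 1
        ring
    _ ≤ Real.exp (y ^ 2 * Vr) := Real.exp_le_exp.2 (mul_le_mul_of_nonneg_left hV (sq_nonneg y))

end Pool.Agent.NIB.H79
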