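import Pool.Agent.Helper79_NIB.Bern

/-!
# NIB: module COND

Concentration of conditionally centred sums.
-/

set_option autoImplicit false
set_option linter.unusedSectionVars false

open Finset Matrix

namespace Pool.Agent.NIB.H79

/-- the one-coordinate estimate, conditioned on the type -/
lemma cond_one {α β : Type} [Fintype α] [DecidableEq α] [DecidableEq β] {w y A k : α → ℝ}
    {ty : α → β} {v κ z : ℝ} (hw : ∀ s, 0 ≤ w s)
    (h1 : ∀ t, ∑ s with ty s = t, w s * y s = 0)
    (h2 : ∀ t, ∑ s with ty s = t, w s * y s ^ 2 ≤ v * ∑ s with ty s = t, w s)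
    (hy : ∀ s, |y s| ≤ 1) (hA : ∀ s, 0 ≤ A s)
    (hAt : ∀ s s', ty s = ty s' → A s = A s') (hkt : ∀ s s', ty s = ty s' → k s = k s')
    (hk : ∀ s, |k s| ≤ κ) (hz : |z| * κ ≤ 1) (hκ : 0 ≤ κ) (hv : 0 ≤ v) :
    ∑ s, w s * (A s * Real.exp (z * (k s * y s)))
      ≤ Real.exp (z ^ 2 * (κ ^ 2 * v)) * ∑ s, w s * A s := by
  have hx : ∀ s, |z * (k s * y s)| ≤ 1 := by
    intro s
    rw [abs_mul, abs_mul]
    have h3 : |k s| * |y s| ≤ κ * 1 := mul_le_mul (hk s) (hy s) (abs_nonneg _) hκ
    rw [mul_one] at h3
    exact (mul_le_mul_of_nonneg_left h3 (abs_nonneg _)).trans hz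
  have hfib : ∀ f : α → ℝ, ∑ s, f s = ∑ t ∈ univ.image ty, ∑ s with ty s = t, f s := by
    intro f
    exact (Finset.sum_fiberwise_of_maps_to (fun s _ => Finset.mem_image_of_mem ty
      (Finset.mem_univ s)) f).symm
  have e1 : ∑ s, w s * (A s * (k s * y s)) = 0 := by
    rw [hfib]
    refine Finset.sum_eq_zero fun t ht => ?_
    obtain ⟨s0, -, hs0⟩ := Finset.mem_image.1 ht
    have : ∑ s with ty s = t, w s * (A s * (k s * y s))
        = A s0 * k s0 * ∑ s with ty s = t, w s * y s := by
      rw [Finset.mul_sum]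
      refine Finset.sum_congr rfl fun s hs => ?_
      have hs' := (Finset.mem_filter.1 hs).2
      rw [hAt s s0 (hs'.trans hs0.symm), hkt s s0 (hs'.trans hs0.symm)]
      ring
    rw [this, h1, mul_zero]
  have e2 : ∑ s, w s * (A s * (k s * y s) ^ 2) ≤ κ ^ 2 * v * ∑ s, w s * A s := by
    rw [hfib, hfib (fun s => w s * A s), Finset.mul_sum]
    refine Finset.sum_le_sum fun t ht => ?_
    obtain ⟨s0, -, hs0⟩ := Finset.mem_image.1 ht
    have e3 : ∑ s with ty s = t, w s * (A s * (k s * y s) ^ 2)
        = A s0 * k s0 ^ 2 * ∑ s with ty s = t, w s * y s ^ 2 := by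
      rw [Finset.mul_sum]
      refine Finset.sum_congr rfl fun s hs => ?_
      have hs' := (Finset.mem_filter.1 hs).2
      rw [hAt s s0 (hs'.trans hs0.symm), hkt s s0 (hs'.trans hs0.symm)]
      ring
    have e4 : ∑ s with ty s = t, w s * A s = A s0 * ∑ s with ty s = t, w s := by
      rw [Finset.mul_sum]
      refine Finset.sum_congr rfl fun s hs => ?_
      have hs' := (Finset.mem_filter.1 hs).2
      rw [hAt s s0 (hs'.trans hs0.symm)]
      ring
    rw [e3, e4]
    have hk2 : k s0 ^ 2 ≤ κ ^ 2 :=
      sq_le_sq' (by linarith [(abs_le.1 (hk s0)).1]) (abs_le.1 (hk s0)).2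
    have hW : 0 ≤ v * ∑ s with ty s = t, w s :=
      mul_nonneg hv (Finset.sum_nonneg fun s _ => hw s)
    calc A s0 * k s0 ^ 2 * ∑ s with ty s = t, w s * y s ^ 2
        ≤ A s0 * k s0 ^ 2 * (v * ∑ s with ty s = t, w s) :=
          mul_le_mul_of_nonneg_left (h2 t) (mul_nonneg (hA s0) (sq_nonneg _))
      _ ≤ A s0 * κ ^ 2 * (v * ∑ s with ty s = t, w s) :=
          mul_le_mul_of_nonneg_right (mul_le_mul_of_nonneg_left hk2 (hA s0)) hW
      _ = κ ^ 2 * v * (A s0 * ∑ s with ty s = t, w s) := by ring
  have hS : 0 ≤ ∑ s, w s * A s := Finset.sum_nonneg fun s _ => mul_nonneg (hw s) (hA s)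
  calc ∑ s, w s * (A s * Real.exp (z * (k s * y s)))
      ≤ ∑ s, w s * (A s * (1 + z * (k s * y s) + (z * (k s * y s)) ^ 2)) :=
        Finset.sum_le_sum fun s _ => mul_le_mul_of_nonneg_left
          (mul_le_mul_of_nonneg_left (exp_le_quad (hx s)) (hA s)) (hw s)
    _ = ∑ s, w s * A s + z * ∑ s, w s * (A s * (k s * y s))
        + z ^ 2 * ∑ s, w s * (A s * (k s * y s) ^ 2) := by
        rw [Finset.mul_sum, Finset.mul_sum, ← Finset.sum_add_distrib, ← Finset.sum_add_distrib]
        exact Finset.sum_congr rfl fun s _ => by ring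
    _ ≤ ∑ s, w s * A s + z * 0 + z ^ 2 * (κ ^ 2 * v * ∑ s, w s * A s) := by
        rw [e1]
        have := mul_le_mul_of_nonneg_left e2 (sq_nonneg z)
        linarith
    _ = (z ^ 2 * (κ ^ 2 * v) + 1) * ∑ s, w s * A s := by ring
    _ ≤ Real.exp (z ^ 2 * (κ ^ 2 * v)) * ∑ s, w s * A s :=
        mul_le_mul_of_nonneg_right (Real.add_one_le_exp _) hS

theorem cond : CondStmt := by
  intro I α β _ _ _ _ _ wt ty T y k κ v Vr B L h h1 h2 hy hv hkt hk hκB hB hV hL
  -- the space is nonempty as soon as there is a coordinate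
  have hne : Nonempty (I → α) := by
    by_contra hne
    rw [not_nonempty_iff] at hne
    have := sum_pw h
    rw [Finset.univ_eq_empty, Finset.sum_empty] at this
    exact zero_ne_one this
  obtain ⟨ω0⟩ := hne
  have hκ0 : ∀ i ∈ T, 0 ≤ κ i := fun i hi => (abs_nonneg _).trans (hk i hi ω0)
  have hV0 : 0 ≤ Vr := by
    refine le_trans ?_ hV
    exact Finset.sum_nonneg fun i hi => mul_nonneg (sq_nonneg _) (hv i hi)
  have main : ∀ z : ℝ, |z| * (2 * B) ≤ 1 → ∀ S : Finset I, S ⊆ T →
      Ex wt (fun ω => Real.exp (z * ∑ i ∈ S, k i ω * y i (ω i)))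
        ≤ Real.exp (z ^ 2 * ∑ i ∈ S, κ i ^ 2 * v i) := by
    intro z hz S
    induction S using Finset.induction_on with
    | empty =>
      intro _
      simp only [Finset.sum_empty, mul_zero, Real.exp_zero]
      rw [Ex_const h]
    | insert i S hi ih =>
      intro hST
      have hiT : i ∈ T := hST (Finset.mem_insert_self i S)
      have hST' : S ⊆ T := fun j hj => hST (Finset.mem_insert_of_mem hj)
      have ih' := ih hST'
      rw [Ex_update h i]
      have key : ∀ η : I → α,
          ∑ s, wt i s * Real.exp (z * ∑ j ∈ insert i S, k j (Function.update η i s)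
            * y j (Function.update η i s j))
          ≤ Real.exp (z ^ 2 * (κ i ^ 2 * v i)) * ∑ s, wt i s * Real.exp (z * ∑ j ∈ S,
            k j (Function.update η i s) * y j (Function.update η i s j)) := by
        intro η
        have hz' : |z| * κ i ≤ 1 := by
          have h3 := hκB i hiT
          have h4 := abs_nonneg z
          have h5 := hκ0 i hiT
          nlinarith
        have hty : ∀ s s', ty s = ty s' → ∀ j, ty (Function.update η i s j)
            = ty (Function.update η i s' j) := by
          intro s s' hss j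
          by_cases hj : j = i
          · subst hj
            rw [Function.update_self, Function.update_self, hss]
          · rw [Function.update_of_ne hj, Function.update_of_ne hj]
        have h6 := cond_one (w := wt i) (y := y i) (ty := ty) (v := v i) (κ := κ i) (z := z)
          (A := fun s => Real.exp (z * ∑ j ∈ S,
            k j (Function.update η i s) * y j (Function.update η i s j)))
          (k := fun s => k i (Function.update η i s)) (h.nonneg i) (h1 i hiT) (h2 i hiT)
          (hy i hiT) (fun s => (Real.exp_pos _).le)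
          (fun s s' hss => by
            show Real.exp _ = Real.exp _
            congr 2
            refine Finset.sum_congr rfl fun j hj => ?_
            have hji : j ≠ i := fun e => hi (by rw [← e]; exact hj)
            rw [Function.update_of_ne hji, Function.update_of_ne hji,
              hkt j (hST' hj) _ _ (hty s s' hss)])
          (fun s s' hss => hkt i hiT _ _ (hty s s' hss))
          (fun s => hk i hiT _) hz' (hκ0 i hiT) (hv i hiT)
        refine le_trans (le_of_eq ?_) h6
        refine Finset.sum_congr rfl fun s _ => ?_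
        rw [Finset.sum_insert hi, Function.update_self, mul_add, Real.exp_add]
        ring
      calc Ex wt (fun η => ∑ s, wt i s * Real.exp (z * ∑ j ∈ insert i S,
              k j (Function.update η i s) * y j (Function.update η i s j)))
          ≤ Ex wt (fun η => Real.exp (z ^ 2 * (κ i ^ 2 * v i)) * ∑ s, wt i s * Real.exp (z *
              ∑ j ∈ S, k j (Function.update η i s) * y j (Function.update η i s j))) :=
            Ex_mono h key
        _ = Real.exp (z ^ 2 * (κ i ^ 2 * v i))
              * Ex wt (fun ω => Real.exp (z * ∑ j ∈ S, k j ω * y j (ω j))) := by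
            rw [Ex_mul, ← Ex_update h i (fun ω => Real.exp (z * ∑ j ∈ S, k j ω * y j (ω j)))]
        _ ≤ Real.exp (z ^ 2 * (κ i ^ 2 * v i)) * Real.exp (z ^ 2 * ∑ i ∈ S, κ i ^ 2 * v i) :=
            mul_le_mul_of_nonneg_left ih' (Real.exp_pos _).le
        _ = Real.exp (z ^ 2 * ∑ i ∈ insert i S, κ i ^ 2 * v i) := by
            rw [← Real.exp_add, Finset.sum_insert hi, mul_add]
  refine tail_gen h (fun ω => ∑ i ∈ T, k i ω * y i (ω i)) hV0 hB hL ?_
  intro z hz
  exact (main z hz T (Finset.Subset.refl T)).trans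
    (Real.exp_le_exp.2 (mul_le_mul_of_nonneg_left hV (sq_nonneg z)))

end Pool.Agent.NIB.H79
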